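import Pool.Agent.W2helper31.GP.Stm5

set_option autoImplicit false

namespace Pool.Agent.W2helper11.GP5

lemma sum_cos (b : Fin 3 → ℝ) : ∑ i, Real.cos (b i - Complex.arg (∑ i, Complex.exp (b i * Complex.I)))
    = ‖∑ i, Complex.exp (b i * Complex.I)‖ := by
  set w : ℂ := ∑ i, Complex.exp (b i * Complex.I) with hw
  have hre : w.re = ∑ i, Real.cos (b i) := by
    rw [hw, Complex.re_sum]
    exact Finset.sum_congr rfl fun i _ => Complex.exp_ofReal_mul_I_re _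
  have him : w.im = ∑ i, Real.sin (b i) := by
    rw [hw, Complex.im_sum]
    exact Finset.sum_congr rfl fun i _ => Complex.exp_ofReal_mul_I_im _
  have h1 : ∑ i, Real.cos (b i - Complex.arg w)
      = w.re * Real.cos (Complex.arg w) + w.im * Real.sin (Complex.arg w) := by
    rw [hre, him, Finset.sum_mul, Finset.sum_mul, ← Finset.sum_add_distrib]
    exact Finset.sum_congr rfl fun i _ => Real.cos_sub _ _
  rw [h1, ← Complex.norm_mul_cos_arg w, ← Complex.norm_mul_sin_arg w]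
  rw [Complex.norm_mul_cos_arg w, Complex.norm_mul_sin_arg w]
  have h2 := Complex.norm_mul_cos_arg w
  have h3 := Complex.norm_mul_sin_arg w
  rw [← h2, ← h3]
  have h4 := Real.sin_sq_add_cos_sq (Complex.arg w)
  linear_combination ‖w‖ * h4

lemma newton (z : Fin 3 → ℂ) (hz : ∀ i, ‖z i‖ = 1) :
    3 - 3 * ‖∑ i, z i‖ ^ 2 - ‖∑ i, z i‖ ^ 3 ≤ ‖∑ i, z i ^ 3‖ := by
  have hc : ∀ i, z i * (starRingEnd ℂ) (z i) = 1 := by
    intro i
    rw [Complex.mul_conj, Complex.normSq_eq_norm_sq, hz]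
    simp
  set S : ℂ := ∑ i, z i with hS
  have hSc : S * (starRingEnd ℂ) S = ((‖S‖ ^ 2 : ℝ) : ℂ) := by
    rw [Complex.mul_conj, Complex.normSq_eq_norm_sq]
  have hT : ∑ i, z i ^ 3 = S ^ 3 + 3 * (z 0 * z 1 * z 2) * (1 - ((‖S‖ ^ 2 : ℝ) : ℂ)) := by
    rw [← hSc, hS]
    simp only [Fin.sum_univ_three, map_add]
    have h0 := hc 0
    have h1 := hc 1
    have h2 := hc 2
    linear_combination (3 * (z 0 + z 1 + z 2) * z 1 * z 2) * h0
      + (3 * (z 0 + z 1 + z 2) * z 0 * z 2) * h1 + (3 * (z 0 + z 1 + z 2) * z 0 * z 1) * h2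
  have h3 : ‖3 * (z 0 * z 1 * z 2) * (1 - ((‖S‖ ^ 2 : ℝ) : ℂ))‖ = 3 * |1 - ‖S‖ ^ 2| := by
    have h4 : (1 - ((‖S‖ ^ 2 : ℝ) : ℂ)) = ((1 - ‖S‖ ^ 2 : ℝ) : ℂ) := by push_cast; ring
    rw [h4, norm_mul, norm_mul, norm_mul, norm_mul, hz, hz, hz, Complex.norm_real, Real.norm_eq_abs]
    simp
  have h5 : 3 * (z 0 * z 1 * z 2) * (1 - ((‖S‖ ^ 2 : ℝ) : ℂ)) = (∑ i, z i ^ 3) - S ^ 3 := by
    rw [hT]; ring
  have h6 : 3 * |1 - ‖S‖ ^ 2| ≤ ‖∑ i, z i ^ 3‖ + ‖S‖ ^ 3 := by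
    rw [← h3, h5]
    calc ‖(∑ i, z i ^ 3) - S ^ 3‖ ≤ ‖∑ i, z i ^ 3‖ + ‖S ^ 3‖ := norm_sub_le _ _
      _ = _ := by rw [norm_pow]
  have h7 := le_abs_self (1 - ‖S‖ ^ 2)
  linarith

theorem p_alg3 : Pool.Agent.W2helper31.GP.P_ALG3 := by
  intro a
  have h1 := sum_cos (fun i => 2 * a i)
  have h2 := sum_cos (fun i => 6 * a i)
  have h3 := newton (fun i => Complex.exp (((2 * a i : ℝ) : ℂ) * Complex.I))
    (fun i => Complex.norm_exp_ofReal_mul_I _)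
  have h4 : ∀ i, Complex.exp (((2 * a i : ℝ) : ℂ) * Complex.I) ^ 3
      = Complex.exp (((6 * a i : ℝ) : ℂ) * Complex.I) := by
    intro i
    rw [← Complex.exp_nat_mul]
    congr 1
    push_cast
    ring
  simp only [h4] at h3
  refine ⟨Complex.arg (∑ i, Complex.exp (((2 * a i : ℝ) : ℂ) * Complex.I)),
    Complex.arg (∑ i, Complex.exp (((6 * a i : ℝ) : ℂ) * Complex.I)),
    ‖∑ i, Complex.exp (((2 * a i : ℝ) : ℂ) * Complex.I)‖, norm_nonneg _, h1, ?_, ?_⟩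
  · rw [h2]
    exact norm_nonneg _
  · rw [h2]
    exact h3

end Pool.Agent.W2helper11.GP5
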