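import Pool.Agent.W2helper31.GP.Stm5

set_option autoImplicit false

open Filter Topology

namespace Pool.Agent.W2helper11.GP5

/-- the factor -/
noncomputable def q (t : ℝ) : ℝ := (1 + t / 2) ^ 3 * (1 + 3 * t / 2) / (1 + t) ^ 3

lemma q_pos {t : ℝ} (ht : 0 < t) : 0 < q t := by unfold q; positivity

lemma q_eq {t : ℝ} (ht : 0 < t) : q t = 1 + t ^ 3 / 4 * (1 + 3 * t / 4) / (1 + t) ^ 3 := by
  unfold q
  have h : (1 + t) ^ 3 ≠ 0 := by positivity
  field_simp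
  ring

lemma q_one {p : ℝ} (hp : 0 < p) (hp1 : p ≤ 1) : q p ≤ Real.exp (56 / 1000 * p ^ 2) := by
  rw [q_eq hp]
  have h1 : p ^ 3 / 4 * (1 + 3 * p / 4) / (1 + p) ^ 3 ≤ 56 / 1000 * p ^ 2 := by
    rw [div_le_iff₀ (by positivity)]
    have h2 : p / 4 * (1 + 3 * p / 4) ≤ 56 / 1000 * (1 + p) ^ 3 := by
      nlinarith [mul_nonneg hp.le (sq_nonneg (p - 41 / 50)), sq_nonneg (p - 827 / 1000)]
    have h3 : 0 ≤ p ^ 2 := sq_nonneg p
    calc p ^ 3 / 4 * (1 + 3 * p / 4) = p ^ 2 * (p / 4 * (1 + 3 * p / 4)) := by ring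
      _ ≤ p ^ 2 * (56 / 1000 * (1 + p) ^ 3) := mul_le_mul_of_nonneg_left h2 h3
      _ = _ := by ring
  have h4 := Real.add_one_le_exp (56 / 1000 * p ^ 2)
  linarith

lemma q_two {p : ℝ} (hp : 0 < p) (hp1 : p ≤ 1) {x : ℝ} (hx : 2 ≤ x) :
    q (p / x) ≤ Real.exp (11 / 32 / (x * (x + 1) * (x + 2)) * p ^ 2) := by
  have hx0 : 0 < x := by linarith
  rw [q_eq (div_pos hp hx0)]
  have e1 : (p / x) ^ 3 / 4 * (1 + 3 * (p / x) / 4) / (1 + p / x) ^ 3
      = p ^ 3 * (4 * x + 3 * p) / (16 * x * (x + p) ^ 3) := by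
    have h1 : x + p ≠ 0 := by positivity
    have h2 : 1 + p / x = (x + p) / x := by field_simp
    rw [h2]
    field_simp
    ring
  have h1 : (p / x) ^ 3 / 4 * (1 + 3 * (p / x) / 4) / (1 + p / x) ^ 3
      ≤ 11 / 32 / (x * (x + 1) * (x + 2)) * p ^ 2 := by
    rw [e1]
    -- monotone in `p`
    have h2 : p * (4 * x + 3 * p) * (x + 1) ^ 3 ≤ (4 * x + 3) * (x + p) ^ 3 := by
      have h3 : p * (x + 1) ^ 3 ≤ (x + p) ^ 3 := by
        nlinarith [mul_nonneg (sub_nonneg.2 hp1) (sub_nonneg.2 hx), mul_nonneg (sub_nonneg.2 hp1) hp.le,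
          mul_nonneg (mul_nonneg (sub_nonneg.2 hp1) hp.le) hx0.le,
          mul_nonneg (sub_nonneg.2 hp1) (pow_nonneg hx0.le 3),
          mul_nonneg (mul_nonneg (sub_nonneg.2 hp1) hp.le) (sq_nonneg x),
          mul_nonneg (sub_nonneg.2 hp1) (mul_nonneg (sub_nonneg.2 hx) (sq_nonneg x)), sq_nonneg (p - 1),
          mul_nonneg hp.le (sq_nonneg (p - 1)), mul_nonneg (sub_nonneg.2 hp1) (sub_nonneg.2 hp1)]
      have h4 : 4 * x + 3 * p ≤ 4 * x + 3 := by linarith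
      calc p * (4 * x + 3 * p) * (x + 1) ^ 3 = (4 * x + 3 * p) * (p * (x + 1) ^ 3) := by ring
        _ ≤ (4 * x + 3) * (x + p) ^ 3 := by
          apply mul_le_mul h4 h3 (by positivity) (by positivity)
    have h5 : (4 * x + 3) * (x + 2) * 2 ≤ 11 * (x + 1) ^ 2 := by nlinarith
    rw [div_mul_eq_mul_div, div_le_div_iff₀ (by positivity) (by positivity)]
    have h6 : p * (4 * x + 3 * p) * ((x + 1) * (x + 2)) * (x + 1) ^ 2 * 2
        ≤ 11 * (x + p) ^ 3 * (x + 1) ^ 2 := by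
      calc p * (4 * x + 3 * p) * ((x + 1) * (x + 2)) * (x + 1) ^ 2 * 2
          = (p * (4 * x + 3 * p) * (x + 1) ^ 3) * ((x + 2) * 2) := by ring
        _ ≤ ((4 * x + 3) * (x + p) ^ 3) * ((x + 2) * 2) :=
          mul_le_mul_of_nonneg_right h2 (by positivity)
        _ = (x + p) ^ 3 * ((4 * x + 3) * (x + 2) * 2) := by ring
        _ ≤ (x + p) ^ 3 * (11 * (x + 1) ^ 2) := mul_le_mul_of_nonneg_left h5 (by positivity)
        _ = _ := by ring
    have h7 : p * (4 * x + 3 * p) * ((x + 1) * (x + 2)) * 2 ≤ 11 * (x + p) ^ 3 := by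
      have h8 : 0 < (x + 1) ^ 2 := by positivity
      exact le_of_mul_le_mul_right (by linarith) h8
    calc p ^ 3 * (4 * x + 3 * p) * (x * (x + 1) * (x + 2))
        = (p * (4 * x + 3 * p) * ((x + 1) * (x + 2)) * 2) * (p ^ 2 * x / 2) := by ring
      _ ≤ (11 * (x + p) ^ 3) * (p ^ 2 * x / 2) := mul_le_mul_of_nonneg_right h7 (by positivity)
      _ = _ := by ring
  have h4 := Real.add_one_le_exp (11 / 32 / (x * (x + 1) * (x + 2)) * p ^ 2)
  linarith

lemma prod_bound {p : ℝ} (hp : 0 < p) (hp1 : p ≤ 1) (N : ℕ) :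
    ∏ j ∈ Finset.range (N + 1), q (p / ((j : ℝ) + 1)) ≤
      Real.exp ((56 / 1000 + 11 / 64 * (1 / 6 - 1 / (((N : ℝ) + 2) * (N + 3)))) * p ^ 2) := by
  induction N with
  | zero =>
    have h := q_one hp hp1
    simp only [zero_add, Finset.prod_range_one, Nat.cast_zero]
    norm_num at h ⊢
    exact h
  | succ N ih =>
    rw [Finset.prod_range_succ]
    have h1 := q_two hp hp1 (x := ((N + 1 : ℕ) : ℝ) + 1) (by push_cast; have := Nat.cast_nonneg (α := ℝ) N; linarith)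
    have h0 : 0 < q (p / (((N + 1 : ℕ) : ℝ) + 1)) := q_pos (by positivity)
    calc _ ≤ Real.exp ((56 / 1000 + 11 / 64 * (1 / 6 - 1 / (((N : ℝ) + 2) * (N + 3)))) * p ^ 2)
          * Real.exp (11 / 32 / ((((N + 1 : ℕ) : ℝ) + 1) * ((((N + 1 : ℕ) : ℝ) + 1) + 1)
            * ((((N + 1 : ℕ) : ℝ) + 1) + 2)) * p ^ 2) :=
          mul_le_mul ih h1 h0.le (Real.exp_nonneg _)
      _ = _ := by
        rw [← Real.exp_add]
        congr 1
        push_cast
        have e1 : (N : ℝ) + 2 ≠ 0 := by positivity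
        have e2 : (N : ℝ) + 3 ≠ 0 := by positivity
        have e3 : (N : ℝ) + 4 ≠ 0 := by positivity
        have e4 : (N : ℝ) + 1 + 1 = N + 2 := by ring
        have e5 : (N : ℝ) + 2 + 1 = N + 3 := by ring
        have e6 : (N : ℝ) + 2 + 2 = N + 4 := by ring
        have e7 : (N : ℝ) + 1 + 2 = N + 3 := by ring
        have e8 : (N : ℝ) + 1 + 3 = N + 4 := by ring
        rw [e4, e5, e6, e7, e8]
        field_simp
        ring

lemma prod_le {p : ℝ} (hp : 0 < p) (hp1 : p ≤ 1) (N : ℕ) :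
    ∏ j ∈ Finset.range (N + 1), q (p / ((j : ℝ) + 1)) ≤ 1 + 91 / 1000 * p ^ 2 := by
  refine (prod_bound hp hp1 N).trans ?_
  have h1 : 0 ≤ 1 / (((N : ℝ) + 2) * (N + 3)) := by positivity
  have hp2 : 0 < p ^ 2 := by positivity
  have hp3 : p ^ 2 ≤ 1 := by nlinarith
  have h2 : (56 / 1000 + 11 / 64 * (1 / 6 - 1 / (((N : ℝ) + 2) * (N + 3)))) * p ^ 2
      ≤ 85 / 1000 * p ^ 2 := mul_le_mul_of_nonneg_right (by linarith) hp2.le
  refine (Real.exp_le_exp.2 h2).trans ?_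
  have h3 := Real.exp_bound' (x := 85 / 1000 * p ^ 2) (by positivity) (by linarith) (n := 2) (by norm_num)
  simp only [Finset.sum_range_succ, Finset.sum_range_zero] at h3
  norm_num [Nat.factorial] at h3
  nlinarith

/-- the finite product -/
noncomputable def R (x : ℝ) (n : ℕ) : ℝ := ∏ j ∈ Finset.range (n + 1), (1 + x / ((j : ℝ) + 1))

lemma R_pos {x : ℝ} (hx : 0 ≤ x) (n : ℕ) : 0 < R x n :=
  Finset.prod_pos fun j _ => by positivity

lemma gseq {x : ℝ} (hx : 0 ≤ x) (n : ℕ) :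
    Real.GammaSeq (1 + x) n = (n : ℝ) ^ (1 + x) / (((n : ℝ) + 1) * R x n) := by
  have h1 : ∏ j ∈ Finset.range (n + 1), (1 + x + (j : ℝ)) = ((n + 1).factorial : ℝ) * R x n := by
    calc ∏ j ∈ Finset.range (n + 1), (1 + x + (j : ℝ))
        = ∏ j ∈ Finset.range (n + 1), (((j : ℝ) + 1) * (1 + x / ((j : ℝ) + 1))) := by
          refine Finset.prod_congr rfl fun j _ => ?_
          have : (j : ℝ) + 1 ≠ 0 := by positivity
          field_simp
          ring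
      _ = (∏ j ∈ Finset.range (n + 1), ((j : ℝ) + 1)) * R x n := by
          rw [Finset.prod_mul_distrib]; rfl
      _ = _ := by
          rw [← Finset.prod_range_add_one_eq_factorial]
          push_cast
          rfl
  unfold Real.GammaSeq
  rw [h1, Nat.factorial_succ]
  push_cast
  have h2 : (n.factorial : ℝ) ≠ 0 := by exact_mod_cast n.factorial_ne_zero
  have h3 : R x n ≠ 0 := (R_pos hx n).ne'
  have h4 : (n : ℝ) + 1 ≠ 0 := by positivity
  field_simp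

lemma prod_q {p : ℝ} (n : ℕ) :
    ∏ j ∈ Finset.range (n + 1), q (p / ((j : ℝ) + 1))
      = R (p / 2) n ^ 3 * R (3 * p / 2) n / R p n ^ 3 := by
  unfold R q
  rw [Finset.prod_div_distrib, Finset.prod_mul_distrib, Finset.prod_pow, Finset.prod_pow]
  congr 2
  · congr 1
    refine Finset.prod_congr rfl fun j _ => ?_
    ring
  · refine Finset.prod_congr rfl fun j _ => ?_
    ring

lemma step {p : ℝ} (hp : 0 < p) (hp1 : p ≤ 1) {n : ℕ} (hn : 0 < n) :
    Real.GammaSeq (1 + p) n ^ 3 ≤ (1 + 1 / (n : ℝ)) * ((1 + 91 / 1000 * p ^ 2) *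
      (Real.GammaSeq (1 + p / 2) n ^ 3 * Real.GammaSeq (1 + 3 * p / 2) n)) := by
  have hn0 : 0 < (n : ℝ) := by exact_mod_cast hn
  have hQ := prod_le hp hp1 n
  rw [prod_q] at hQ
  rw [gseq hp.le, gseq (by positivity : 0 ≤ p / 2), gseq (by positivity : 0 ≤ 3 * p / 2)]
  have hR := R_pos hp.le n
  have hR2 := R_pos (by positivity : 0 ≤ p / 2) n
  have hR3 := R_pos (by positivity : 0 ≤ 3 * p / 2) n
  have e1 : ((n : ℝ) ^ (1 + p)) ^ 3 * n = ((n : ℝ) ^ (1 + p / 2)) ^ 3 * (n : ℝ) ^ (1 + 3 * p / 2) := by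
    rw [← Real.rpow_natCast, ← Real.rpow_natCast, ← Real.rpow_mul hn0.le, ← Real.rpow_mul hn0.le,
      ← Real.rpow_add hn0]
    nth_rewrite 2 [← Real.rpow_one (n : ℝ)]
    rw [← Real.rpow_add hn0]
    congr 1
    push_cast
    ring
  set X := (n : ℝ) ^ (1 + p)
  set Y := (n : ℝ) ^ (1 + p / 2)
  set Z := (n : ℝ) ^ (1 + 3 * p / 2)
  have hX : 0 < X := Real.rpow_pos_of_pos hn0 _
  have hY : 0 < Y := Real.rpow_pos_of_pos hn0 _
  have hZ : 0 < Z := Real.rpow_pos_of_pos hn0 _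
  generalize R p n = r1 at *
  generalize R (p / 2) n = r2 at *
  generalize R (3 * p / 2) n = r3 at *
  have e2 : (X / (((n : ℝ) + 1) * r1)) ^ 3 = (1 + 1 / (n : ℝ)) *
      ((r2 ^ 3 * r3 / r1 ^ 3) *
      ((Y / (((n : ℝ) + 1) * r2)) ^ 3 * (Z / (((n : ℝ) + 1) * r3)))) := by
    have h1 : X ^ 3 = Y ^ 3 * Z / n := by
      rw [eq_div_iff hn0.ne']; exact e1
    rw [div_pow, h1]
    field_simp
  rw [e2]
  have h5 : 0 ≤ (Y / (((n : ℝ) + 1) * r2)) ^ 3 * (Z / (((n : ℝ) + 1) * r3)) := by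
    positivity
  have h6 : 0 ≤ 1 + 1 / (n : ℝ) := by positivity
  exact mul_le_mul_of_nonneg_left (mul_le_mul_of_nonneg_right hQ h5) h6

theorem p_gam3 : Pool.Agent.W2helper31.GP.P_GAM3 := by
  intro p hp hp1
  have l1 := (Real.GammaSeq_tendsto_Gamma (1 + p)).pow 3
  have l2 := ((Real.GammaSeq_tendsto_Gamma (1 + p / 2)).pow 3).mul
    (Real.GammaSeq_tendsto_Gamma (1 + 3 * p / 2))
  have l3 : Tendsto (fun n : ℕ => 1 + 1 / (n : ℝ)) atTop (𝓝 (1 + 0)) :=
    tendsto_const_nhds.add tendsto_one_div_atTop_nhds_zero_nat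
  have l4 := l3.mul (l2.const_mul (1 + 91 / 1000 * p ^ 2))
  have h := le_of_tendsto_of_tendsto l1 l4 (by
    filter_upwards [eventually_gt_atTop 0] with n hn
    exact step hp hp1 hn)
  rw [add_zero, one_mul] at h
  exact h

end Pool.Agent.W2helper11.GP5
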